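import Pool.Agent.G18.Defs

/-!
# G18X: the cubic extension of the example

`M` is an extension of `K` with the basis `1`, `z`, `z ^ 2` and `z ^ 3 = t - s z ^ 2`. The trace,
the norm and the element `x# = N(x) / x` of `x = a 0 + a 1 z + a 2 z ^ 2`.
-/

set_option autoImplicit false

noncomputable section

namespace Pool.Agent.G18X

open Pool.Agent.C18 (sh)

/-- A basis `1`, `z`, `z ^ 2` with `z ^ 3 = t - s z ^ 2`. -/
structure CB (K M : Type) [Field K] [Field M] [Algebra K M] (s t : K) where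
  /-- the basis -/
  b : Module.Basis (Fin 3) K M
  h0 : b 0 = 1
  h2 : b 2 = b 1 * b 1
  h3 : b 1 * b 2 = algebraMap K M t - algebraMap K M s * b 2

namespace CB

variable {K M : Type} [Field K] [Field M] [Algebra K M] {s t : K} (B : CB K M s t)

/-- The element `a 0 + a 1 z + a 2 z ^ 2`. -/
def el (a : Fin 3 → K) : M := a 0 • B.b 0 + a 1 • B.b 1 + a 2 • B.b 2

theorem repr_el (a : Fin 3 → K) : ⇑(B.b.repr (B.el a)) = a := by
  have h : B.el a = ∑ i, a i • B.b i := by rw [Fin.sum_univ_three, el]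
  rw [h, B.b.repr_sum_self]

theorem el_surj (x : M) : ∃ a, B.el a = x :=
  ⟨B.b.repr x, by rw [el, ← Fin.sum_univ_three fun i => B.b.repr x i • B.b i, B.b.sum_repr]⟩

theorem el_add (a c : Fin 3 → K) : B.el (a + c) = B.el a + B.el c := by
  simp only [el, Pi.add_apply, add_smul]
  ring

theorem el_sub (a c : Fin 3 → K) : B.el (a - c) = B.el a - B.el c := by
  simp only [el, Pi.sub_apply, sub_smul]
  ring

theorem el_smul (k : K) (a : Fin 3 → K) : B.el (k • a) = k • B.el a := by
  simp only [el, Pi.smul_apply, smul_add, smul_smul, smul_eq_mul]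

/-- The product in coordinates. -/
def mu (s t : K) (a c : Fin 3 → K) : Fin 3 → K :=
  ![a 0 * c 0 + a 2 * t * c 1 + (a 1 - s * a 2) * t * c 2,
    a 1 * c 0 + a 0 * c 1 + a 2 * t * c 2,
    a 2 * c 0 + (a 1 - s * a 2) * c 1 + (a 0 - s * a 1 + s ^ 2 * a 2) * c 2]

theorem el_mul (a c : Fin 3 → K) : B.el a * B.el c = B.el (mu s t a c) := by
  have h2 := B.h2
  have h3 := B.h3
  simp only [el, B.h0, mu, Algebra.smul_def, Matrix.cons_val_zero, Matrix.cons_val_one,
    Matrix.cons_val]
  generalize B.b 2 = y at h2 h3 ⊢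
  generalize B.b 1 = x at h2 h3 ⊢
  simp only [map_add, map_sub, map_mul, map_pow]
  generalize algebraMap K M s = s at h2 h3 ⊢
  generalize algebraMap K M t = t at h2 h3 ⊢
  generalize algebraMap K M (a 0) = a0
  generalize algebraMap K M (a 1) = a1
  generalize algebraMap K M (a 2) = a2
  generalize algebraMap K M (c 0) = c0
  generalize algebraMap K M (c 1) = c1
  generalize algebraMap K M (c 2) = c2
  have h4 : y * y = t * x - s * t + s ^ 2 * y := by
    have : y * y = x * (x * y) := by rw [h2]; ring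
    rw [this, h3]
    linear_combination -s * h3
  linear_combination (a1 * c2 + a2 * c1) * h3 + a2 * c2 * h4 - a1 * c1 * h2

theorem one_eq : B.el ![1, 0, 0] = 1 := by
  simp [el, B.h0]

theorem algebraMap_eq (k : K) : B.el ![k, 0, 0] = algebraMap K M k := by
  simp [el, B.h0, Algebra.smul_def]

/-- The matrix of the multiplication. -/
def mat (s t : K) (a : Fin 3 → K) : Matrix (Fin 3) (Fin 3) K :=
  Matrix.of ![![a 0, a 2 * t, (a 1 - s * a 2) * t], ![a 1, a 0, a 2 * t],
    ![a 2, a 1 - s * a 2, a 0 - s * a 1 + s ^ 2 * a 2]]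

theorem leftMul (a : Fin 3 → K) : Algebra.leftMulMatrix B.b (B.el a) = mat s t a := by
  ext i j
  rw [Algebra.leftMulMatrix_eq_repr_mul]
  have h : B.b j = B.el (Pi.single j 1) := by
    fin_cases j <;> simp [el]
  rw [h, el_mul, repr_el]
  fin_cases i <;> fin_cases j <;> simp [mu, mat]

theorem trace_el (a : Fin 3 → K) :
    Algebra.trace K M (B.el a) = 3 * a 0 - s * a 1 + s ^ 2 * a 2 := by
  rw [Algebra.trace_eq_matrix_trace B.b, leftMul, Matrix.trace_fin_three]
  simp [mat]
  ring

/-- The norm in coordinates. -/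
def nm (s t : K) (a : Fin 3 → K) : K :=
  a 0 * (a 0 * (a 0 - s * a 1 + s ^ 2 * a 2) - a 2 * t * (a 1 - s * a 2)) -
    a 2 * t * (a 1 * (a 0 - s * a 1 + s ^ 2 * a 2) - a 2 * t * a 2) +
    (a 1 - s * a 2) * t * (a 1 * (a 1 - s * a 2) - a 0 * a 2)

theorem norm_el (a : Fin 3 → K) : Algebra.norm K (B.el a) = nm s t a := by
  rw [Algebra.norm_eq_matrix_det B.b, leftMul, Matrix.det_fin_three]
  simp [mat, nm]
  ring

/-- The element `N(x) / x` in coordinates. -/
def shc (s t : K) (a : Fin 3 → K) : Fin 3 → K :=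
  ![a 0 * (a 0 - s * a 1 + s ^ 2 * a 2) - a 2 * t * (a 1 - s * a 2),
    -(a 1 * (a 0 - s * a 1 + s ^ 2 * a 2) - a 2 * t * a 2),
    a 1 * (a 1 - s * a 2) - a 0 * a 2]

theorem sh_el (a : Fin 3 → K) : sh K (B.el a) = B.el (shc s t a) := by
  have h : B.el a * B.el (shc s t a) = algebraMap K M (nm s t a) := by
    rw [el_mul, ← algebraMap_eq]
    congr 1
    funext i
    fin_cases i <;> simp [mu, shc, nm] <;> ring
  by_cases h0 : B.el a = 0
  · have h1 : a = 0 := by
      rw [← B.repr_el a, h0]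
      simp
    subst h1
    have h2 : shc s t (0 : Fin 3 → K) = 0 := by
      funext i
      fin_cases i <;> simp [shc]
    rw [h2]
    have h3 : B.el 0 = 0 := by simp [el]
    rw [h3]
    simp [sh]
  · unfold sh
    rw [norm_el, ← h]
    field_simp

end CB

end Pool.Agent.G18X
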