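import Pool.Agent.G18.Defs

/-!
# G18X: the cubic fourfold and the net of the example

`exX` is a cubic fourfold with a cuspidal curve `det (p_0 A_0 + p_1 A_1 + p_2 A_2) = 0`,
`F = -x2 (x0 x2 - x1 ^ 2) - y0 (y1 ^ 2 - y0 y2) + (y1 - y2) (x0 y1 + x1 y2) +
x0 (x0 y0 + x1 y1 + x2 y2) + x2 y0 (x2 + y1)`; `exV` is a net and `exc` are its parameters.
-/

set_option autoImplicit false

noncomputable section

namespace Pool.Agent.G18X

open Pool.Agent.C18 (Cub Net K var)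

/-- The cubic fourfold. -/
def exX : Cub ℂ where
  A := ![!![0, 1, 0; 0, 0, 1; 0, 0, 0], 1, !![0, 0, 0; 0, 0, 0; 1, 0, 0]]
  m := ![![0, 0, 0], ![1, 0, 0], ![0, 0, 1]]
  n := ![![0, 1, -1], ![0, 0, 0], ![0, 1, 0]]
  al := -1
  be := -1

/-- The net. -/
def exV : Net ℂ where
  A := ![!![0, 1, 0; 0, 0, 1; 1, 0, 0], !![0, 0, 0; 1, 0, 0; 0, 0, 0],
    !![0, 1, 0; 0, 0, 0; 1, 0, 0]]
  a := ![![-1, 0, -1], ![0, 0, -1], ![-3, 0, 0]]
  a' := ![![0, 0, 2], ![2, -1, 0], ![0, 0, -1]]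

/-- The parameters of the net. -/
def exc : Fin 2 → K := ![var 0, var 1 - 1]

end Pool.Agent.G18X
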