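import Pool.Agent.G18X.Data
import Pool.Agent.GSE.Fld
import Pool.Agent.GSE.Tab

/-!
# G18X: the cubic fourfold of the example is smooth

Certificates modulo 13 for the six charts.
-/

set_option autoImplicit false
set_option maxRecDepth 100000

noncomputable section

namespace Pool.Agent.G18X

open Pool.Agent

/-- the terms of the cubic form -/
def tm : GSE.CT :=
  [(-1, 0, 2, 2), (1, 1, 1, 2), (-1, 3, 4, 4), (1, 3, 3, 5), (1, 0, 4, 4), (1, 1, 4, 5), (-1, 0,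
    4, 5), (-1, 1, 5, 5), (1, 0, 0, 3), (1, 0, 1, 4), (1, 0, 2, 5), (1, 2, 2, 3), (1, 2, 3, 4)]

/-- certificate for the chart 0 -/
def c0 : Fin 6 → GSE.NP 0 :=
  (![0, 0, 0, 1, 0, 0] : Fin 6 → ℤ)

/-- certificate for the chart 1 -/
def c1 : Fin 6 → GSE.NP 1 :=
  (![[], [], [1], [], [], []] : Fin 6 → List (ℤ))

/-- certificate for the chart 2 -/
def c2 : Fin 6 → GSE.NP 2 :=
  (![[[12]], [], [], [], [], []] : Fin 6 → List (List (ℤ)))

/-- certificate for the chart 3 -/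
def c3 : Fin 6 → GSE.NP 3 :=
  (![[], [[],[[6]]], [], [[[],[1]]], [[[0,12]]], [[[1]]]] : Fin 6 → List (List (List (ℤ))))

/-- certificate for the chart 4 -/
def c4 : Fin 6 → GSE.NP 4 :=
  (![[[[[1,2],[7,12]],[[1,2],[2]]],[[[12]]]], [[[[3,5,10],[3]],[[8,3],[8]],[[1]]],[[[3],[5]],
    [[12]]]], [[[[3,3,1],[0,10]],[[8]]],[[[6]]]], [[[[0,2],[4,6],[10]],[[1,2]]],[[[9],[2]]]],
    [[[[3,5,7],[5,2],[3]]],[[[1]]]], [[[[9,2]]]]] : Fin 6 → List (List (List (List (ℤ)))))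

/-- certificate for the chart 5 -/
def c5 : Fin 6 → GSE.NP 5 :=
  (![[[[[[2,0,5,12],[6,8,11,1],[7,6,3],[6,1],[1]],[[4,1,1,6],[2,10,12],[7,12],[11]],[[2,8],[5,3],
    [6]],[[0,3]]],[[[2,6,2,2],[4,10,4],[0,12],[10]],[[8,3,5],[3,3]],[[8,11]],[[6]]],[[[8],[9]],
    [[7,3]]]],[[[[12],[10],[5]]]]], [[[[[12,8,10,4,10],[12,3,2,3],[10,11],[11,8],[2]],[[2,5,2,6],
    [12,9,8],[11,9],[10]],[[2,10,10],[3],[7]],[[11,10]]],[[[0,6,2,11],[10,12,10],[12,1],[8]],[[2,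
    10,1],[0,3],[2]],[[0,11],[7]],[[3]]],[[[0,9],[3,6],[7]],[[7],[8]],[[5]]],[[[3,3],[3]]]],
    [[[[10,11,6],[8,7,6],[2,8],[1]],[[10,5],[9,3],[11]],[[0,10],[8]]],[[[5,2,11],[5,7],[8]],[[2,
    1],[10]]],[[[],[4]],[[9]]]]], [[[[[7,11,12,0,1],[9,10,10,3],[11,2,11],[5,8]],[[3,0,9,4],[4,9,
    5],[12,3],[9]],[[5,0,10],[],[6]],[[2,5],[12]]],[[[3,3,4],[3,3,7],[11,11]],[[10,9],[0,11],[5]],
    [[5,9],[8]]],[[[10,7,10],[10,10],[8]]]],[[[[6],[12],[2],[7]],[[10]],[[5]],[[4]]],[[[],[8]]]]],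
    [[[[[0,8,9,5],[3,10,11,7],[1,3,11],[12,2],[1]],[[0,3,6,6],[8,9,2],[10,10],[11]],[[2,5,10],[0,
    11],[6]],[[0,3]]],[[[0,0,2],[8,9,11],[10,7],[4]],[[7,6,6]],[[0,11]],[[10]]],[[[8],[8,4]],[[3,
    12]]]],[[[[12],[10],[5]]]]], [[[[[12,1,3,12,6],[3,12,8,1],[8,12,8],[12,1],[5]],[[10,2,2,9],[1,
    11,10],[1,8],[2]],[[12,3,7],[3,10]],[[11,3],[9]],[[9]]],[[[4,6],[7,6],[7]],[[11]]],[[[],[],
    [4]]]]], [[[[[0,8,8,12,9],[0,9,5,1],[3,1,5],[4,5],[5]],[[1,6,11,11],[12,10],[4,8],[12]],[[6,6,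
    4]]]]]] : Fin 6 → List (List (List (List (List (ℤ))))))

/-- the certificates -/
def c : (n : ℕ) → Fin 6 → GSE.NP n
  | 0 => c0
  | 1 => c1
  | 2 => c2
  | 3 => c3
  | 4 => c4
  | 5 => c5
  | _ + 6 => fun _ => GSE.NP.zero _

theorem smooth_tm : P28.PSmooth (MvPolynomial.map (Int.castRingHom ℂ) (GSE.ctF tm)) := by
  refine GSE.psmooth_of_ct tm 13 (by norm_num) c fun n hn => ?_
  interval_cases n <;> decide +kernel

theorem map_tm : MvPolynomial.map (Int.castRingHom ℂ) (GSE.ctF tm) = exX.F := by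
  simp [GSE.ctF, tm, C18.Cub.F, C18.Cub.form, C18.Cub.map, exX, Matrix.det_fin_three,
    Matrix.vecMul, Matrix.mulVec, dotProduct, Fin.sum_univ_three]
  ring

/-- The cubic fourfold is smooth. -/
theorem smooth : P28.PSmooth exX.F := by
  rw [← map_tm]
  exact smooth_tm

/-- The cubic form is irreducible. -/
theorem irr : Irreducible exX.F := by
  have h : exX.F.IsHomogeneous 3 := by
    rw [← map_tm]
    exact (GSE.hom_ctF tm).map _
  exact GSE.psmooth_irr h (by norm_num) smooth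

/-- The cubic fourfold is non-degenerate. -/
theorem nondeg : exX.NonDeg where
  al := by simp [exX]
  be := by simp [exX]
  rows := ⟨![1, 0, 1], by
    simp [exX, Matrix.det_fin_three, Matrix.vecMul, dotProduct, Fin.sum_univ_three]⟩
  cols := ⟨![1, 1, 0], by
    simp [exX, Matrix.det_fin_three, Matrix.mulVec, dotProduct, Fin.sum_univ_three]⟩
  det := ⟨0, by simp [exX]⟩

end Pool.Agent.G18X
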