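import Pool.Agent.G18X.Twist
import Pool.Agent.G18X.Smooth
import Pool.Agent.G18.VFour

/-!
# G18X: a smooth cubic fourfold which satisfies the hypotheses of the theorem on `C_18`

`example18`: the cubic fourfold `exX`, the net `exV` and the parameters `exc`.
-/

set_option autoImplicit false

noncomputable section

namespace Pool.Agent.G18X

open MvPolynomial
open Pool.Agent.C18 (Cub Net K SameTwist)

theorem Dl_ne : eval exV.coord G18.Dl ≠ 0 := by
  have h1 : G18.mm (fun k => exV.A k) exV.a exV.a' = ![1, 0, 0] := by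
    funext k
    fin_cases k <;> simp [G18.mm, G18.q1, G18.q2, G18.VG.cr, exV]
  have h2 : G18.VG.lc (fun k => exV.A k) ![1, 0, 0] = exV.A 0 := by
    funext i j
    simp [G18.VG.lc]
  have h3 : G18.nf (fun k => exV.A k) ![1, 0, 0] ![1, 0, 0] = -1 := by
    unfold G18.nf G18.VG.vw
    rw [h2]
    simp [G18.VG.cr, G18.VG.mv, G18.VG.dt, exV]
  rw [G18.eval_Dl]
  unfold G18.dl
  rw [h1, h3, h2]
  simp [exV]

/-- **The example.** -/
theorem example18 : ∃ (X : Cub ℂ) (V : Net ℂ) (c : Fin 2 → K), P28.PSmooth X.F ∧ X.NonDeg ∧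
    Irreducible X.F ∧ eval V.coord G18.Dl ≠ 0 ∧ IntermediateField.adjoin ℂ (Set.range c) = ⊤ ∧
    SameTwist X.fib (V.fib c) :=
  ⟨exX, exV, exc, smooth, nondeg, irr, Dl_ne, top, same⟩

end Pool.Agent.G18X
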