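import Pool.Agent.G18X.Cubic

/-!
# G18X: the cubic extension exists

The polynomial `Y ^ 3 + s Y ^ 2 - t` is irreducible over `K = ℂ(s, t)`.
-/

set_option autoImplicit false

noncomputable section

namespace Pool.Agent.G18X

open MvPolynomial
open Pool.Agent.C18 (K var)

private theorem no_root3 (p : MvPolynomial (Fin 2) ℂ) : p ^ 3 + X 0 * p ^ 2 - X 1 ≠ 0 := by
  intro h
  have h1 := congrArg (aeval ![(0 : Polynomial ℂ), Polynomial.X]) h
  simp only [map_add, map_sub, map_mul, map_pow, map_zero, aeval_X] at h1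
  have h2 : (aeval ![(0 : Polynomial ℂ), Polynomial.X] p) ^ 3 = Polynomial.X := by
    have h3 : (![(0 : Polynomial ℂ), Polynomial.X] 0) = 0 := rfl
    have h4 : (![(0 : Polynomial ℂ), Polynomial.X] 1) = Polynomial.X := rfl
    rw [h3, h4] at h1
    linear_combination h1
  have h5 := congrArg Polynomial.natDegree h2
  rw [Polynomial.natDegree_pow, Polynomial.natDegree_X] at h5
  omega

/-- The polynomial. -/
def exP : Polynomial K :=
  Polynomial.X ^ 3 + Polynomial.C (var 0) * Polynomial.X ^ 2 - Polynomial.C (var 1)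

theorem exP_monic : exP.Monic := by
  unfold exP
  monicity!

theorem exP_natDegree : exP.natDegree = 3 := by
  unfold exP
  compute_degree!

private def exR : Polynomial (MvPolynomial (Fin 2) ℂ) :=
  Polynomial.X ^ 3 + Polynomial.C (X 0) * Polynomial.X ^ 2 - Polynomial.C (X 1)

private theorem exR_monic : exR.Monic := by
  unfold exR
  monicity!

theorem exP_irr : Irreducible exP := by
  rw [exP_monic.irreducible_iff_roots_eq_zero_of_degree_le_three
    (by rw [exP_natDegree]; norm_num) exP_natDegree.le, Multiset.eq_zero_iff_forall_notMem]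
  intro x hx
  have hx' : Polynomial.eval x exP = 0 := Polynomial.isRoot_of_mem_roots hx
  have hx3 : x ^ 3 + var 0 * x ^ 2 - var 1 = 0 := by
    simpa [exP] using hx'
  have hx2 : Polynomial.aeval x exR = 0 := by
    simp only [exR, map_add, map_sub, map_mul, map_pow, Polynomial.aeval_X, Polynomial.aeval_C]
    exact hx3
  obtain ⟨p, rfl⟩ := isInteger_of_is_root_of_monic exR_monic hx2
  refine no_root3 p ?_
  apply FaithfulSMul.algebraMap_injective (MvPolynomial (Fin 2) ℂ) K
  rw [map_sub, map_add, map_mul, map_pow, map_pow, map_zero]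
  exact hx3

theorem aeval_exP {M : Type} [CommRing M] [Algebra K M] (x : M) : Polynomial.aeval x exP =
    x ^ 3 + algebraMap K M (var 0) * x ^ 2 - algebraMap K M (var 1) := by
  simp [exP]

/-- the extension -/
theorem exists_CB : ∃ (M : Type) (_ : Field M) (_ : Algebra K M),
    Module.finrank K M = 3 ∧ Nonempty (CB K M (var 0) (var 1)) := by
  have : Fact (Irreducible exP) := ⟨exP_irr⟩
  set pb := AdjoinRoot.powerBasis exP_irr.ne_zero with hpb
  have hd : pb.dim = 3 := by
    rw [hpb, AdjoinRoot.powerBasis_dim, exP_natDegree]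
  have hg : pb.gen = AdjoinRoot.root exP := AdjoinRoot.powerBasis_gen _
  have hb : ∀ i : Fin 3, pb.basis.reindex (finCongr hd) i = AdjoinRoot.root exP ^ (i : ℕ) := by
    intro i
    rw [Module.Basis.reindex_apply, PowerBasis.basis_eq_pow, hg]
    rfl
  have hr : AdjoinRoot.root exP ^ 3 + algebraMap K (AdjoinRoot exP) (var 0) *
      AdjoinRoot.root exP ^ 2 - algebraMap K (AdjoinRoot exP) (var 1) = 0 := by
    rw [← aeval_exP, AdjoinRoot.aeval_eq, AdjoinRoot.mk_self]
  refine ⟨AdjoinRoot exP, inferInstance, inferInstance, ?_, ⟨⟨pb.basis.reindex (finCongr hd), ?_,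
    ?_, ?_⟩⟩⟩
  · rw [pb.finrank, hd]
  · rw [hb]
    simp
  · rw [hb, hb]
    simp [pow_two]
  · rw [hb, hb]
    simp only [Fin.val_one, pow_one, Fin.val_two]
    linear_combination hr

end Pool.Agent.G18X
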