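import Pool.Agent.G18X.Pair

/-!
# G18X: the two fibres of the example

`eval_X`, `eval_V`: the values of the polynomials of the two fibres.
-/

set_option autoImplicit false

noncomputable section

namespace Pool.Agent.G18X

open MvPolynomial Matrix
open Pool.Agent.C18 (Cub Net K var)

/-- The polynomial of the fibre of `exX` in components. -/
def pX {R : Type} [CommRing R] (s t : R) (v : Fin 3 → R) : R :=
  -1 + (s * v 0 + t * v 2) + (1 + t) * (v 2 ^ 2 - s * v 1 * v 2 + t * v 0 * v 1) -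
    (-(v 1 * v 2) + s * v 0 * v 2 - t * v 0 ^ 2) -
    t * (t ^ 2 * v 0 ^ 3 - t * v 1 ^ 3 + v 2 ^ 3 + 3 * t * v 0 * v 1 * v 2 - s * t * v 0 * v 1 ^ 2 -
      s * t * v 0 ^ 2 * v 2 + s ^ 2 * v 1 ^ 2 * v 2 - 2 * s * v 1 * v 2 ^ 2)

theorem fibre_X {R : Type} [CommRing R] (f : ℂ →+* R) (s t : R) (v : Fin 3 → R) :
    (exX.map f).fibre s t v = pX s t v := by
  obtain ⟨a, b, c, rfl⟩ : ∃ a b c, v = ![a, b, c] := ⟨v 0, v 1, v 2, by
    ext i
    fin_cases i <;> rfl⟩
  have hP : (exX.map f).P s t = ![!![1, -s, 0; 0, 1, -s; 0, 0, 1],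
      !![0, -t, 0; 0, 0, -t; 1, 0, 0]] := by
    unfold Cub.P
    funext k
    fin_cases k <;>
    · ext i j
      fin_cases i <;> fin_cases j <;> simp [exX, Cub.map]
  have hA : (!![1, -s, 0; 0, 1, -s; 0, 0, 1] : Matrix (Fin 3) (Fin 3) R).adjugate =
      !![1, s, s ^ 2; 0, 1, s; 0, 0, 1] := by
    rw [adjugate_fin_three]
    simp [pow_two]
  unfold Cub.fibre Cub.sh pX
  rw [hP]
  simp [hA, exX, Cub.map, vecMul, dotProduct, Fin.sum_univ_three, cross_apply, Matrix.mul_apply]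
  ring

/-- The polynomial of the fibre of `exV` in components. -/
def pV {R : Type} [CommRing R] (s t : R) (v : Fin 3 → R) : R :=
  let w : Fin 3 → R := ![t * v 1, s * v 0 + v 2, t * v 0]
  let u : Fin 3 → R := ![v 1 * w 2 - v 2 * w 1, v 2 * w 0 - v 0 * w 2, v 0 * w 1 - v 1 * w 0]
  (u 0 * (t * w 1) + u 1 * (s * w 0 + w 2) + u 2 * (t * w 0)) +
    ((2 - 3 * t) * u 0 - (1 + s) * u 2) + (2 * s * v 0 - s * v 1 + (3 - t) * v 2) - 1

theorem fibre_V {R : Type} [CommRing R] (f : ℂ →+* R) (s t : R) (v : Fin 3 → R) :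
    (exV.map f).fibre ![s, t - 1] v = pV s t v := by
  obtain ⟨a, b, c, rfl⟩ : ∃ a b c, v = ![a, b, c] := ⟨v 0, v 1, v 2, by
    ext i
    fin_cases i <;> rfl⟩
  have hM : (exV.map f).mat ![s, t - 1] = !![0, t, 0; s, 0, 1; t, 0, 0] := by
    unfold Net.mat
    ext i j
    fin_cases i <;> fin_cases j <;> simp [exV, Net.map]
  have h2 : f 2 = 2 := map_ofNat f 2
  have h3 : f 3 = 3 := map_ofNat f 3
  unfold Net.fibre pV
  rw [hM]
  simp [exV, Net.map, dotProduct, Fin.sum_univ_three, cross_apply, h2, h3]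
  ring

/-! ### Values over `K` -/

theorem eval_X (v : Fin 3 → K) : eval v exX.fib = pX (var 0) (var 1) v := by
  have h1 : exX.fib = pX (C (var 0)) (C (var 1)) MvPolynomial.X :=
    fibre_X ((C : K →+* MvPolynomial (Fin 3) K).comp (algebraMap ℂ K)) (C (var 0)) (C (var 1))
      MvPolynomial.X
  rw [h1]
  simp [pX]

theorem eval_V (v : Fin 3 → K) : eval v (exV.fib exc) = pV (var 0) (var 1) v := by
  have h1 : exV.fib exc = pV (C (var 0)) (C (var 1)) MvPolynomial.X := by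
    have h2 := fibre_V ((C : K →+* MvPolynomial (Fin 3) K).comp (algebraMap ℂ K)) (C (var 0))
      (C (var 1)) MvPolynomial.X
    rw [← h2]
    unfold Net.fib
    congr 1
    funext i
    fin_cases i <;> simp [exc]
  rw [h1]
  simp [pV]

/-! ### The parametrisations -/

section

variable {K : Type} [Field K] {s t d : K}

theorem aff_X (hd : d ≠ 0) (h : d = 27 * t - 4 * s ^ 3) (a : Fin 3 → K) :
    pX s t ![a 0, -(t * a 2), t * (a 1 - s * a 2)] = -1 + tr3 s (CB.mu s t (m1 s t d) a) +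
      tr3 s (CB.mu s t (n1 s t d) (CB.shc s t a)) + -t ^ 3 * CB.nm s t a := by
  simp only [pX, tr3, CB.mu, CB.shc, CB.nm, m1, n1, Matrix.cons_val_zero, Matrix.cons_val_one,
    Matrix.cons_val]
  field_simp
  rw [h]
  ring

theorem aff_V (hd : d ≠ 0) (h : d = 27 * t - 4 * s ^ 3) (a : Fin 3 → K) :
    pV s t ![-(t * a 2), -a 0, -(t * (a 1 - s * a 2))] = -1 + tr3 s (CB.mu s t (m2 s t d) a) +
      tr3 s (CB.mu s t (n2 s t d) (CB.shc s t a)) + t ^ 3 * CB.nm s t a := by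
  simp only [pV, tr3, CB.mu, CB.shc, CB.nm, m1, m2, n2, Matrix.cons_val_zero, Matrix.cons_val_one,
    Matrix.cons_val]
  field_simp
  rw [h]
  ring

end

end Pool.Agent.G18X
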