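import Pool.Agent.G18X.Cubic
import Pool.Agent.G18X.Data

/-!
# G18X: two cubes with the same norm form

`C1` and `C2`: two cubes over the cubic extension with the basis `1`, `z`, `z ^ 2`. They differ by a
translation `x ↦ x / (1 + w x)`, so they have the same numbers `D`, `g` and `h` (`D_eq`, `g_eq`).
-/

set_option autoImplicit false

noncomputable section

namespace Pool.Agent.G18X

open Pool.Agent.C18 (Cube sh)

section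

variable {K : Type} [Field K]

/-- The trace in coordinates. -/
def tr3 (s : K) (a : Fin 3 → K) : K := 3 * a 0 - s * a 1 + s ^ 2 * a 2

/-- The coordinates of `m` of the first cube. -/
def m1 (s t d : K) : Fin 3 → K :=
  ![(9 * s * t - 2 * s ^ 2 * t ^ 2 - 2 * s ^ 4) / d,
    (3 * s * t ^ 2 + s ^ 3) / d, (9 * t ^ 2 + 3 * s ^ 2) / d]

/-- The coordinates of `n` of the first cube. -/
def n1 (s t d : K) : Fin 3 → K :=
  ![t * (9 * t + 3 * s * t * (1 + t) - 2 * s ^ 3) / d,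
    t * (s ^ 2 + (1 + t) * (9 * t - 2 * s ^ 3)) / d,
    t * (3 * s - 2 * s ^ 2 * (1 + t)) / d]

/-- The coordinates of `m` of the second cube. -/
def m2 (s t d : K) : Fin 3 → K := ![m1 s t d 0, m1 s t d 1 - s, m1 s t d 2 - 1]

/-- The coordinates of `n` of the second cube. -/
def n2 (s t d : K) : Fin 3 → K :=
  ![t * (9 * s * t ^ 2 + 3 * s * t + 9 * t) / d,
    t * (-2 * s ^ 2 + 2 * s ^ 3 - 6 * s ^ 3 * t + 27 * t ^ 2 - 18 * t) / d,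
    t * (-6 * s - 2 * s ^ 2 - 6 * s ^ 2 * t) / d]

variable {s t d : K}

theorem tr_1 (hd : d ≠ 0) (h : d = 27 * t - 4 * s ^ 3) :
    tr3 s (CB.mu s t (m1 s t d) (n1 s t d)) = (9 * t ^ 4 + 9 * t ^ 5 + 9 * s * t ^ 2 + 3 * s ^ 2 *
      t ^ 2 + s ^ 2 * t ^ 3 - 2 * s ^ 4 * t) / d := by
  simp only [tr3, CB.mu, m1, n1, Matrix.cons_val_zero, Matrix.cons_val_one, Matrix.cons_val]
  field_simp
  rw [h]
  ring

theorem nm_1 (hd : d ≠ 0) (h : d = 27 * t - 4 * s ^ 3) :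
    CB.nm s t (m1 s t d) = (t ^ 6 + 2 * s ^ 2 * t ^ 4 + s ^ 3 * t + s ^ 4 * t ^ 2) / d := by
  simp only [CB.nm, m1, Matrix.cons_val_zero, Matrix.cons_val_one, Matrix.cons_val]
  field_simp
  rw [h]
  ring

theorem nn_1 (hd : d ≠ 0) (h : d = 27 * t - 4 * s ^ 3) :
    CB.nm s t (n1 s t d) = (t ^ 4 + t ^ 5 + 3 * t ^ 6 + 3 * t ^ 7 + t ^ 8 - s * t ^ 4 - s * t ^ 5)
      / d := by
  simp only [CB.nm, n1, Matrix.cons_val_zero, Matrix.cons_val_one, Matrix.cons_val]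
  field_simp
  rw [h]
  ring

theorem e2_1 (hd : d ≠ 0) (h : d = 27 * t - 4 * s ^ 3) :
    tr3 s (CB.shc s t (CB.mu s t (m1 s t d) (n1 s t d))) = (27 * t ^ 8 + 54 * t ^ 9 + 27 * t ^ 10
      + 27 * s * t ^ 6 + 27 * s * t ^ 7 + 27 * s ^ 2 * t ^ 4 + 27 * s ^ 2 * t ^ 6 + 45 * s ^ 2 * t
      ^ 7 + 18 * s ^ 2 * t ^ 8 - 9 * s ^ 3 * t ^ 5 - s ^ 3 * t ^ 7 - 2 * s ^ 3 * t ^ 8 - s ^ 3 * t
      ^ 9 + 9 * s ^ 4 * t ^ 4 + 8 * s ^ 4 * t ^ 5 - 10 * s ^ 5 * t ^ 3 - 2 * s ^ 5 * t ^ 5 - 4 * s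
      ^ 5 * t ^ 6 - 2 * s ^ 5 * t ^ 7 - s ^ 6 * t ^ 3 + s ^ 6 * t ^ 4 - s ^ 7 * t ^ 3 - 2 * s ^ 7
      * t ^ 4 - s ^ 7 * t ^ 5 + s ^ 8 * t ^ 2) / d ^ 2 := by
  simp only [tr3, CB.shc, CB.mu, m1, n1, Matrix.cons_val_zero, Matrix.cons_val_one,
    Matrix.cons_val]
  field_simp
  rw [h]
  ring

theorem tr_2 (hd : d ≠ 0) (h : d = 27 * t - 4 * s ^ 3) :
    tr3 s (CB.mu s t (m2 s t d) (n2 s t d)) = (54 * t ^ 3 - 99 * t ^ 4 + 27 * t ^ 5 + 9 * s * t ^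
      2 + 3 * s ^ 2 * t ^ 2 + 13 * s ^ 2 * t ^ 3 - 8 * s ^ 3 * t ^ 2 + 16 * s ^ 3 * t ^ 3) / d := by
  simp only [tr3, CB.mu, m2, m1, n2, Matrix.cons_val_zero, Matrix.cons_val_one, Matrix.cons_val]
  field_simp
  rw [h]
  ring

theorem nm_2 (hd : d ≠ 0) (h : d = 27 * t - 4 * s ^ 3) :
    CB.nm s t (m2 s t d) = (-(27 * t ^ 3) + 27 * t ^ 4 - 9 * t ^ 5 + t ^ 6 - 6 * s ^ 2 * t ^ 3 + 2
      * s ^ 2 * t ^ 4 + s ^ 3 * t + 4 * s ^ 3 * t ^ 2 - 4 * s ^ 3 * t ^ 3 - s ^ 4 * t + s ^ 4 * t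
      ^ 2) / d := by
  simp only [CB.nm, m2, m1, Matrix.cons_val_zero, Matrix.cons_val_one, Matrix.cons_val]
  field_simp
  rw [h]
  ring

theorem nn_2 (hd : d ≠ 0) (h : d = 27 * t - 4 * s ^ 3) :
    CB.nm s t (n2 s t d) = (t ^ 4 - 8 * t ^ 5 + 36 * t ^ 6 - 54 * t ^ 7 + 27 * t ^ 8 - s * t ^ 4 +
      6 * s * t ^ 5 - s ^ 2 * t ^ 4 + 9 * s ^ 2 * t ^ 6 + s ^ 3 * t ^ 4 - 6 * s ^ 3 * t ^ 5 + 9 *
      s ^ 3 * t ^ 6) / d := by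
  simp only [CB.nm, n2, Matrix.cons_val_zero, Matrix.cons_val_one, Matrix.cons_val]
  field_simp
  rw [h]
  ring

theorem e2_2 (hd : d ≠ 0) (h : d = 27 * t - 4 * s ^ 3) :
    tr3 s (CB.shc s t (CB.mu s t (m2 s t d) (n2 s t d))) = (972 * t ^ 6 - 3564 * t ^ 7 + 4239 * t
      ^ 8 - 1782 * t ^ 9 + 243 * t ^ 10 + 243 * s * t ^ 5 - 405 * s * t ^ 6 + 108 * s * t ^ 7 + 27
      * s ^ 2 * t ^ 4 + 108 * s ^ 2 * t ^ 5 + 297 * s ^ 2 * t ^ 6 - 792 * s ^ 2 * t ^ 7 + 297 * s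
      ^ 2 * t ^ 8 - 180 * s ^ 3 * t ^ 5 + 1122 * s ^ 3 * t ^ 6 - 1192 * s ^ 3 * t ^ 7 + 282 * s ^
      3 * t ^ 8 - 9 * s ^ 3 * t ^ 9 - 27 * s ^ 4 * t ^ 4 + 45 * s ^ 4 * t ^ 5 + 105 * s ^ 4 * t ^
      6 - s ^ 5 * t ^ 3 - 16 * s ^ 5 * t ^ 4 - 42 * s ^ 5 * t ^ 5 + 132 * s ^ 5 * t ^ 6 - 18 * s ^
      5 * t ^ 7 + 2 * s ^ 6 * t ^ 3 + 14 * s ^ 6 * t ^ 4 - 88 * s ^ 6 * t ^ 5 + 84 * s ^ 6 * t ^ 6
      - s ^ 7 * t ^ 3 + 6 * s ^ 7 * t ^ 4 - 9 * s ^ 7 * t ^ 5) / d ^ 2 := by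
  simp only [tr3, CB.shc, CB.mu, m2, m1, n2, Matrix.cons_val_zero, Matrix.cons_val_one,
    Matrix.cons_val]
  field_simp
  rw [h]
  ring

/-- The numerator of `D`. -/
def nD {R : Type} [CommRing R] (s t : R) : R :=
  -(4 * t ^ 4) - 4 * t ^ 5 - 12 * t ^ 6 - 4 * t ^ 7 - 24 * t ^ 8 - 5 * t ^ 9 + 4 * s * t ^ 4 - 12
  * s * t ^ 5 + 2 * s * t ^ 6 - s ^ 2 * t ^ 3 - 8 * s ^ 2 * t ^ 5 - 6 * s ^ 2 * t ^ 6 - 10 * s ^ 2
  * t ^ 7 + 2 * s ^ 3 * t ^ 3 - 2 * s ^ 3 * t ^ 4 - 4 * s ^ 3 * t ^ 6 - s ^ 4 * t ^ 3 + 2 * s ^ 4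
  * t ^ 4 - 5 * s ^ 4 * t ^ 5

/-- The numerator of `g`. -/
def nG {R : Type} [CommRing R] (s t : R) : R :=
  -(18 * t ^ 4) + 9 * t ^ 5 + 2 * t ^ 6 + 9 * s * t ^ 2 + 3 * s ^ 2 * t ^ 2 + s ^ 2 * t ^ 3 + 4 *
  s ^ 2 * t ^ 4 + 2 * s ^ 3 * t + 4 * s ^ 3 * t ^ 3 - 2 * s ^ 4 * t + 2 * s ^ 4 * t ^ 2

theorem map_nD {R S : Type} [CommRing R] [CommRing S] (f : R →+* S) (s t : R) :
    f (nD s t) = nD (f s) (f t) := by
  simp only [nD, map_add, map_sub, map_neg, map_mul, map_pow, map_ofNat]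

theorem map_nG {R S : Type} [CommRing R] [CommRing S] (f : R →+* S) (s t : R) :
    f (nG s t) = nG (f s) (f t) := by
  simp only [nG, map_add, map_sub, map_neg, map_mul, map_pow, map_ofNat]

variable {M : Type} [Field M] [Algebra K M] (B : CB K M s t) (d)

/-- The first cube. -/
def C1 : Cube K M := ⟨-1, -t ^ 3, B.el (m1 s t d), B.el (n1 s t d)⟩

/-- The second cube. -/
def C2 : Cube K M := ⟨-1, t ^ 3, B.el (m2 s t d), B.el (n2 s t d)⟩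

variable {d}

theorem trace_el' (a : Fin 3 → K) : Algebra.trace K M (B.el a) = tr3 s a := B.trace_el a

theorem D_1 (hd : d ≠ 0) (h : d = 27 * t - 4 * s ^ 3) : (C1 d B).D = nD s t / d := by
  unfold Cube.D C1
  simp only
  rw [B.el_mul, B.sh_el, trace_el', trace_el', B.norm_el, B.norm_el, tr_1 hd h, e2_1 hd h,
    nn_1 hd h, nm_1 hd h, nD]
  field_simp
  rw [h]
  ring

theorem D_2 (hd : d ≠ 0) (h : d = 27 * t - 4 * s ^ 3) : (C2 d B).D = nD s t / d := by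
  unfold Cube.D C2
  simp only
  rw [B.el_mul, B.sh_el, trace_el', trace_el', B.norm_el, B.norm_el, tr_2 hd h, e2_2 hd h,
    nn_2 hd h, nm_2 hd h, nD]
  field_simp
  rw [h]
  ring

theorem g_1 (hd : d ≠ 0) (h : d = 27 * t - 4 * s ^ 3) : (C1 d B).g = nG s t / d := by
  unfold Cube.g C1
  simp only
  rw [B.el_mul, trace_el', B.norm_el, tr_1 hd h, nm_1 hd h, nG]
  field_simp
  rw [h]
  ring

theorem g_2 (hd : d ≠ 0) (h : d = 27 * t - 4 * s ^ 3) : (C2 d B).g = nG s t / d := by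
  unfold Cube.g C2
  simp only
  rw [B.el_mul, trace_el', B.norm_el, tr_2 hd h, nm_2 hd h, nG]
  field_simp
  rw [h]
  ring

theorem h_1 (hd : d ≠ 0) (h : d = 27 * t - 4 * s ^ 3) :
    (C1 d B).h = (nG s t ^ 2 - nD s t * d) / d ^ 2 := by
  unfold Cube.h
  rw [D_1 B hd h, g_1 B hd h, C1]
  field_simp

theorem h_2 (hd : d ≠ 0) (h : d = 27 * t - 4 * s ^ 3) : (C2 d B).h = (C1 d B).h := by
  unfold Cube.h
  rw [D_1 B hd h, g_1 B hd h, D_2 B hd h, g_2 B hd h]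
  rfl

/-- the two norm forms are equal -/
theorem N_eq (hd : d ≠ 0) (h : d = 27 * t - 4 * s ^ 3) (w : M × M × M) :
    (C2 d B).N w = (C1 d B).N w := by
  unfold Cube.N
  rw [h_2 B hd h, D_1 B hd h, g_1 B hd h, D_2 B hd h, g_2 B hd h]
  rfl

theorem aff_1 (a : Fin 3 → K) :
    (C1 d B).aff (B.el a) = -1 + tr3 s (CB.mu s t (m1 s t d) a) +
      tr3 s (CB.mu s t (n1 s t d) (CB.shc s t a)) + -t ^ 3 * CB.nm s t a := by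
  unfold Cube.aff C1
  simp only
  rw [B.el_mul, B.sh_el, B.el_mul, trace_el', trace_el', B.norm_el]

theorem aff_2 (a : Fin 3 → K) :
    (C2 d B).aff (B.el a) = -1 + tr3 s (CB.mu s t (m2 s t d) a) +
      tr3 s (CB.mu s t (n2 s t d) (CB.shc s t a)) + t ^ 3 * CB.nm s t a := by
  unfold Cube.aff C2
  simp only
  rw [B.el_mul, B.sh_el, B.el_mul, trace_el', trace_el', B.norm_el]

end

end Pool.Agent.G18X
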