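import Pool.Agent.G18X.Fib
import Pool.Agent.G18X.Ext

/-!
# G18X: the two fibres have the same twist

`same`: the polynomials `exX.fib` and `exV.fib exc` belong to two cubes over the same cubic
extension with the same norm form. `top`: the parameters `exc` generate `K`.
-/

set_option autoImplicit false

noncomputable section

namespace Pool.Agent.G18X

open MvPolynomial
open Pool.Agent.C18 (Cube K var SameTwist)

/-! ### Numbers which are not zero -/

/-- a polynomial is not zero if its value at one point is not zero -/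
theorem K_ne {P : MvPolynomial (Fin 2) ℂ} (a : Fin 2 → ℂ) (h : eval a P ≠ 0) :
    algebraMap (MvPolynomial (Fin 2) ℂ) K P ≠ 0 := by
  intro h2
  rw [map_eq_zero_iff _ (IsFractionRing.injective (MvPolynomial (Fin 2) ℂ) K)] at h2
  rw [h2, map_zero] at h
  exact h rfl

theorem t_ne : var 1 ≠ 0 := K_ne (P := X 1) ![0, 1] (by simp)

theorem d_ne : 27 * var 1 - 4 * var 0 ^ 3 ≠ 0 := by
  have h := K_ne (P := 27 * X 1 - 4 * X 0 ^ 3) ![0, 1] (by simp)
  rwa [map_sub, map_mul, map_mul, map_pow, map_ofNat, map_ofNat] at h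

theorem nD_ne : nD (var 0) (var 1) ≠ 0 := by
  have h := K_ne (P := nD (X 0) (X 1)) ![0, 1] (by
    rw [map_nD]
    simp [nD]
    norm_num)
  rwa [map_nD] at h

theorem nH_ne : nG (var 0) (var 1) ^ 2 - nD (var 0) (var 1) * (27 * var 1 - 4 * var 0 ^ 3) ≠ 0 := by
  have h := K_ne (P := nG (X 0) (X 1) ^ 2 - nD (X 0) (X 1) * (27 * X 1 - 4 * X 0 ^ 3)) ![0, 1] (by
    rw [map_sub, map_pow, map_mul, map_nD, map_nG]
    simp [nD, nG]
    norm_num)
  rwa [map_sub, map_pow, map_mul, map_nD, map_nG, map_sub, map_mul, map_mul, map_pow, map_ofNat,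
    map_ofNat] at h

/-! ### The coordinates -/

section

variable {K : Type} [Field K] (s t : K) (ht : t ≠ 0)

/-- The coordinates of the first surface. -/
def eX : (Fin 3 → K) ≃ₗ[K] (Fin 3 → K) where
  toFun a := ![a 0, -(t * a 2), t * (a 1 - s * a 2)]
  map_add' a b := by
    funext i
    fin_cases i <;> simp <;> ring
  map_smul' k a := by
    funext i
    fin_cases i <;> simp <;> ring
  invFun v := ![v 0, v 2 / t - s * v 1 / t, -v 1 / t]
  left_inv a := by
    funext i
    fin_cases i <;> simp <;> field_simp <;> ring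
  right_inv v := by
    funext i
    fin_cases i <;> simp <;> field_simp <;> ring

/-- The coordinates of the second surface. -/
def eV : (Fin 3 → K) ≃ₗ[K] (Fin 3 → K) where
  toFun a := ![-(t * a 2), -a 0, -(t * (a 1 - s * a 2))]
  map_add' a b := by
    funext i
    fin_cases i <;> simp <;> ring
  map_smul' k a := by
    funext i
    fin_cases i <;> simp <;> ring
  invFun v := ![-v 1, -v 2 / t - s * v 0 / t, -v 0 / t]
  left_inv a := by
    funext i
    fin_cases i <;> simp <;> field_simp <;> ring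
  right_inv v := by
    funext i
    fin_cases i <;> simp <;> field_simp <;> ring

end

/-! ### The theorem -/

theorem same : SameTwist exX.fib (exV.fib exc) := by
  obtain ⟨M, _, _, hM, ⟨B⟩⟩ := exists_CB
  obtain ⟨d, h⟩ : ∃ d, d = 27 * var 1 - 4 * var 0 ^ 3 := ⟨_, rfl⟩
  have hd : d ≠ 0 := by
    rw [h]
    exact d_ne
  have hh : (C1 d B).h ≠ 0 := by
    rw [h_1 B hd h]
    refine div_ne_zero ?_ (pow_ne_zero 2 hd)
    rw [h]
    exact nH_ne
  have he : ∀ (e : (Fin 3 → K) ≃ₗ[K] (Fin 3 → K)) (a : Fin 3 → K),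
      (B.b.equivFun.trans e) (B.el a) = e a := fun e a => by
    rw [LinearEquiv.trans_apply, Module.Basis.equivFun_apply, B.repr_el]
  refine ⟨M, inferInstance, inferInstance, M, inferInstance, inferInstance, hM, hM, C1 d B, C2 d B,
    ⟨⟨B.b.equivFun.trans (eX (var 0) (var 1) t_ne), fun z => ?_, ?_, hh⟩⟩,
    ⟨⟨B.b.equivFun.trans (eV (var 0) (var 1) t_ne), fun z => ?_, ?_, ?_⟩⟩,
    LinearEquiv.refl K _, 1, one_ne_zero, fun w => ?_⟩
  · obtain ⟨a, rfl⟩ := B.el_surj z
    rw [he, eval_X, aff_1, ← aff_X hd h]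
    rfl
  · rw [D_1 B hd h]
    exact div_ne_zero nD_ne hd
  · obtain ⟨a, rfl⟩ := B.el_surj z
    rw [he, eval_V, aff_2, ← aff_V hd h]
    rfl
  · rw [D_2 B hd h]
    exact div_ne_zero nD_ne hd
  · rw [h_2 B hd h]
    exact hh
  · rw [one_mul, LinearEquiv.refl_apply, N_eq B hd h]

theorem top : IntermediateField.adjoin ℂ (Set.range exc) = ⊤ := by
  set T := IntermediateField.adjoin ℂ (Set.range exc) with hT
  have h0 : exc 0 ∈ T := IntermediateField.subset_adjoin _ _ ⟨0, rfl⟩
  have h1 : exc 1 ∈ T := IntermediateField.subset_adjoin _ _ ⟨1, rfl⟩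
  have hs : var 0 ∈ T := h0
  have ht : var 1 ∈ T := by
    have h2 : var 1 = exc 1 + 1 := by simp [exc]
    rw [h2]
    exact add_mem h1 T.one_mem
  rw [eq_top_iff]
  intro k _
  have hP : ∀ P : MvPolynomial (Fin 2) ℂ, algebraMap (MvPolynomial (Fin 2) ℂ) K P ∈ T := by
    intro P
    induction P using MvPolynomial.induction_on with
    | C a =>
      have h3 : algebraMap (MvPolynomial (Fin 2) ℂ) K (C a) = algebraMap ℂ K a := by
        rw [IsScalarTower.algebraMap_apply ℂ (MvPolynomial (Fin 2) ℂ) K]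
        rfl
      rw [h3]
      exact T.algebraMap_mem a
    | add p q hp hq =>
      rw [map_add]
      exact add_mem hp hq
    | mul_X p i hp =>
      rw [map_mul]
      refine mul_mem hp ?_
      fin_cases i
      · exact hs
      · exact ht
  obtain ⟨p, q, _, rfl⟩ := IsFractionRing.div_surjective (A := MvPolynomial (Fin 2) ℂ) k
  exact div_mem (hP p) (hP q)

end Pool.Agent.G18X
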